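import Mathlib
import Pool.Agent.Helper11_PGL.StmtT

/-!
# Squad PGL, module CRAMER: generic interpolation by Cramer's rule
-/

open Matrix

namespace PGL

theorem JJ_finite (m s : ℕ) : Finite (JJ m s) := by
  classical
  refine Finite.of_injective
    (β := Fin (m + 1) → Fin (s + 1))
    (fun a i => (⟨a.1 i, ?_⟩ : Fin (s + 1))) ?_
  · have h1 := a.2.1
    have h2 : a.1 i ≤ a.1.sum fun _ e => e := by
      by_cases hi : i ∈ a.1.support
      · exact Finset.single_le_sum (f := fun i => a.1 i) (fun _ _ => Nat.zero_le _) hi
      · rw [Finsupp.notMem_support_iff.1 hi]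
        exact Nat.zero_le _
    omega
  · intro a b hab
    apply Subtype.ext
    ext i
    have := congrFun hab i
    simpa using this

/-- the generic matrix of the monomials at the points -/
noncomputable def MMat (m s : ℕ) :
    Matrix (JJ m s) (JJ m s) (MvPolynomial (JJ m s × Fin (m + 1)) ℤ) :=
  fun i a => a.1.prod (fun j e => genPt m s (i, j) ^ e)

theorem mul_adj_vec {n R : Type*} [Fintype n] [DecidableEq n] [CommRing R] (M : Matrix n n R)
    (v : n → R) : M.mulVec (M.adjugate.mulVec v) = M.det • v := by
  rw [Matrix.mulVec_mulVec, Matrix.mul_adjugate, Matrix.smul_mulVec, Matrix.one_mulVec]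

theorem adj_mul_vec {n R : Type*} [Fintype n] [DecidableEq n] [CommRing R] (M : Matrix n n R)
    (v : n → R) : M.adjugate.mulVec (M.mulVec v) = M.det • v := by
  rw [Matrix.mulVec_mulVec, Matrix.adjugate_mul, Matrix.smul_mulVec, Matrix.one_mulVec]

theorem sum_single' {m : ℕ} (l : Fin (m + 1)) (e : ℕ) :
    ((Finsupp.single l e).sum fun _ e => e) = e := by
  rw [Finsupp.sum_single_index rfl]

/-- the exponents `e` times a unit vector -/
noncomputable def iotaJ (m s : ℕ) (l : Fin m) (e : Fin s) : JJ m s :=
  ⟨Finsupp.single l.succ (e : ℕ), by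
    refine ⟨?_, ?_⟩
    · rw [sum_single']
      exact e.2.le
    · intro l' h
      have h1 := congrArg (fun a : Fin (m + 1) →₀ ℕ => a.sum fun _ e => e) h
      simp only [sum_single'] at h1
      have := e.2
      omega⟩

/-- the coefficients of the polynomial with roots `1, ..., s` -/
noncomputable def rootPoly (s : ℕ) : Polynomial ℤ :=
  ∏ j ∈ Finset.range s, (Polynomial.X - Polynomial.C ((j : ℤ) + 1))

theorem rootPoly_monic (s : ℕ) : (rootPoly s).Monic :=
  Polynomial.monic_prod_of_monic _ _ fun _ _ => Polynomial.monic_X_sub_C _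

theorem rootPoly_natDegree (s : ℕ) : (rootPoly s).natDegree = s := by
  rw [rootPoly, Polynomial.natDegree_prod_of_monic _ _ fun _ _ => Polynomial.monic_X_sub_C _]
  have h : ∀ j ∈ Finset.range s,
      (Polynomial.X - Polynomial.C ((j : ℤ) + 1)).natDegree = 1 := fun j _ =>
    Polynomial.natDegree_X_sub_C _
  rw [Finset.sum_congr rfl h]
  simp

theorem rootPoly_eval (s : ℕ) (a : ℕ) (h1 : 1 ≤ a) (h2 : a ≤ s) :
    (rootPoly s).eval (a : ℤ) = 0 := by
  rw [rootPoly, Polynomial.eval_prod]
  refine Finset.prod_eq_zero (i := a - 1) (Finset.mem_range.2 (by omega)) ?_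
  rw [Polynomial.eval_sub, Polynomial.eval_X, Polynomial.eval_C]
  have : ((a - 1 : ℕ) : ℤ) = (a : ℤ) - 1 := by
    rw [Nat.cast_sub h1]; simp
  rw [this]
  ring

theorem pow_eq_of_root (s : ℕ) (a : ℕ) (h1 : 1 ≤ a) (h2 : a ≤ s) :
    (a : ℤ) ^ s = ∑ e : Fin s, - (rootPoly s).coeff e * (a : ℤ) ^ (e : ℕ) := by
  have h := rootPoly_eval s a h1 h2
  rw [Polynomial.eval_eq_sum_range, rootPoly_natDegree, Finset.sum_range_succ] at h
  have h3 : (rootPoly s).coeff s = 1 := by
    have := rootPoly_monic s
    rw [Polynomial.Monic, Polynomial.leadingCoeff, rootPoly_natDegree] at this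
    exact this
  rw [h3, one_mul] at h
  have h4 : (a : ℤ) ^ s = - ∑ e ∈ Finset.range s, (rootPoly s).coeff e * (a : ℤ) ^ e := by
    linarith
  rw [h4, Finset.sum_range, ← Finset.sum_neg_distrib]
  refine Finset.sum_congr rfl fun e _ => ?_
  ring

theorem cramer (hgrid : GridStmt) : CramerStmt := by
  classical
  intro m s hs
  haveI := JJ_finite m s
  letI : Fintype (JJ m s) := Fintype.ofFinite _
  set MM := MMat m s with hMM
  refine ⟨MM.det, fun l => Finsupp.equivFunOnFinite.symm
    (MM.adjugate.mulVec (fun i => genPt m s (i, l.succ) ^ s)), ?_, ?_⟩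
  · intro i l
    have h := congrFun (mul_adj_vec MM (fun i => genPt m s (i, l.succ) ^ s)) i
    rw [Pi.smul_apply, smul_eq_mul] at h
    rw [← h, Finsupp.sum_fintype]
    · rw [Matrix.mulVec, dotProduct]
      refine Finset.sum_congr rfl fun a _ => ?_
      rw [mul_comm]
      rfl
    · intro a
      rw [zero_mul]
  · obtain ⟨q, hq1, hq2⟩ := hgrid m s hs
    refine ⟨q, ?_, ?_⟩
    all_goals
      set ev : MvPolynomial (JJ m s × Fin (m + 1)) ℤ →+* ℤ :=
        MvPolynomial.eval (fun ij => q ij.1 ij.2) with hev
      set MQ : Matrix (JJ m s) (JJ m s) ℤ := MM.map ev with hMQ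
      have hMQ' : ∀ i a, MQ i a = a.1.prod (fun j e => (q i j) ^ e) := by
        intro i a
        rw [hMQ, Matrix.map_apply, hMM, MMat, map_finsuppProd]
        refine Finsupp.prod_congr fun j _ => ?_
        rw [map_pow, genPt, hev, MvPolynomial.eval_X]
      have hdet : ev MM.det = MQ.det := by
        rw [hMQ]
        exact RingHom.map_det ev MM
    · rw [hdet]
      intro h0
      have h1 : (MQ.map (Int.castRingHom ℚ)).det = 0 := by
        have := RingHom.map_det (Int.castRingHom ℚ) MQ
        rw [h0, map_zero] at this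
        exact this.symm
      obtain ⟨c, hc1, hc2⟩ := (Matrix.exists_mulVec_eq_zero_iff (M := MQ.map (Int.castRingHom ℚ))).2 h1
      apply hc1
      have h2 := hq2 (Finsupp.equivFunOnFinite.symm c) ?_
      · ext a
        have := DFunLike.congr_fun h2 a
        simpa using this
      · intro i
        rw [Finsupp.sum_fintype]
        · have h3 := congrFun hc2 i
          rw [Matrix.mulVec, dotProduct, Pi.zero_apply] at h3
          rw [← h3]
          refine Finset.sum_congr rfl fun a _ => ?_
          rw [mul_comm, Matrix.map_apply, hMQ', map_finsuppProd]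
          congr 1
          refine Finsupp.prod_congr fun j _ => ?_
          rw [map_pow]
          rfl
        · intro a
          rw [zero_mul]
    · intro l a ha ha0
      have hv : ev ((Finsupp.equivFunOnFinite.symm
          (MM.adjugate.mulVec (fun i => genPt m s (i, l.succ) ^ s))) a)
          = MQ.adjugate.mulVec (fun i => (q i l.succ) ^ s) a := by
        rw [Finsupp.equivFunOnFinite_symm_apply_apply]
        have hadj : MM.adjugate.map ev = (MM.map ev).adjugate := RingHom.map_adjugate ev MM
        rw [hMQ, RingHom.map_mulVec, hadj]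
        congr 2
        funext i
        rw [Function.comp_apply, map_pow, genPt, hev, MvPolynomial.eval_X]
      rw [hv]
      set w : JJ m s → ℤ := ∑ e : Fin s, Pi.single (iotaJ m s l e) (- (rootPoly s).coeff e) with hw
      have hvec : (fun i => (q i l.succ) ^ s) = MQ.mulVec w := by
        funext i
        obtain ⟨b, hb1, hb2, hb3⟩ := hq1 i l
        rw [hw, Matrix.mulVec_sum, Finset.sum_apply]
        rw [hb3, pow_eq_of_root s b hb1 hb2]
        refine Finset.sum_congr rfl fun e _ => ?_
        rw [Matrix.mulVec_single]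
        simp only [Pi.smul_apply, Matrix.col_apply, MulOpposite.smul_eq_mul_unop,
          MulOpposite.unop_op]
        rw [hMQ', mul_comm]
        congr 1
        change _ = (Finsupp.single l.succ (e : ℕ)).prod (fun j e => q i j ^ e)
        rw [Finsupp.prod_single_index (h := fun j e => q i j ^ e) (pow_zero _), hb3]
      rw [hvec, adj_mul_vec, Pi.smul_apply, smul_eq_mul]
      have hwa : w a = 0 := by
        rw [hw, Finset.sum_apply]
        refine Finset.sum_eq_zero fun e _ => ?_
        rw [Pi.single_apply, if_neg]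
        intro h
        rw [h] at ha
        rw [iotaJ] at ha
        dsimp only at ha
        rw [sum_single'] at ha
        have := e.2
        omega
      rw [hwa, mul_zero]

end PGL
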