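import Mathlib
import Pool.Agent.Helper11_PGL.StmtT
import Pool.Agent.Helper34_PGL.Cramer

/-!
# Squad PGL, module BINOM
-/

namespace PGL

theorem binom : BinomStmt := by
  classical
  intro m C
  set r := C * (m * (m + 1)) ^ m + 1 with hr
  have hr1 : 1 ≤ r := by omega
  set s := (m + 1) * r with hs
  have hs1 : 1 ≤ s := by
    rw [hs]
    exact Nat.mul_pos (by omega) hr1
  refine ⟨s, hs1, JJ_finite m s, ?_⟩
  have hfin := JJ_finite m s
  have hcard : r ^ (m + 1) ≤ Nat.card (JJ m s) := by
    have h1 : Nat.card (Fin (m + 1) → Fin r) = r ^ (m + 1) := by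
      rw [Nat.card_fun]
      simp
    rw [← h1]
    let φ : (Fin (m + 1) → Fin r) → JJ m s := fun f =>
      ⟨Finsupp.equivFunOnFinite.symm (fun i => ((f i : Fin r) : ℕ)), by
        have hlt : ((Finsupp.equivFunOnFinite.symm (fun i => ((f i : Fin r) : ℕ))).sum
            fun _ e => e) < s := by
          rw [Finsupp.sum_fintype _ _ fun _ => rfl]
          have h2 : ∀ i ∈ (Finset.univ : Finset (Fin (m + 1))),
              (Finsupp.equivFunOnFinite.symm (fun i => ((f i : Fin r) : ℕ))) i ≤ r - 1 := by
            intro i _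
            rw [Finsupp.equivFunOnFinite_symm_apply_apply]
            have := (f i).2
            omega
          have h3 := Finset.sum_le_card_nsmul _ _ _ h2
          rw [Finset.card_univ, Fintype.card_fin, smul_eq_mul] at h3
          have h4 : (m + 1) * (r - 1) < s := by
            rw [hs]
            exact Nat.mul_lt_mul_of_pos_left (by omega) (by omega)
          exact lt_of_le_of_lt h3 h4
        refine ⟨hlt.le, ?_⟩
        intro l h
        rw [h, sum_single'] at hlt
        exact lt_irrefl _ hlt⟩
    have hφ : Function.Injective φ := by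
      intro f g hfg
      funext i
      have h5 := congrArg (fun a : JJ m s => a.1 i) hfg
      simp only [φ, Finsupp.equivFunOnFinite_symm_apply_apply] at h5
      exact Fin.ext h5
    exact Nat.card_le_card_of_injective φ hφ
  have h6 : m * (s - 1) + m = m * s := by
    obtain ⟨t, ht⟩ : ∃ t, s = t + 1 := ⟨s - 1, by omega⟩
    rw [ht]
    simp
    ring
  rw [h6]
  have h7 : (m * s).choose m ≤ (m * (m + 1)) ^ m * r ^ m := by
    calc (m * s).choose m ≤ (m * s) ^ m := Nat.choose_le_pow _ _
      _ = (m * (m + 1)) ^ m * r ^ m := by rw [hs, ← mul_pow]; ring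
  calc C * (m * s).choose m ≤ C * ((m * (m + 1)) ^ m * r ^ m) := Nat.mul_le_mul_left _ h7
    _ = (C * (m * (m + 1)) ^ m) * r ^ m := by ring
    _ < r * r ^ m := by
      apply Nat.mul_lt_mul_of_pos_right (by omega)
      exact Nat.pos_of_ne_zero (pow_ne_zero _ (by omega))
    _ = r ^ (m + 1) := by ring
    _ ≤ Nat.card (JJ m s) := hcard

end PGL
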