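import Mathlib
import Pool.Agent.Helper11_PGL.StmtG

/-!
# Squad PGL, module FIN2B: finiteness of pointed homomorphisms when all elements are good
-/

open PGH Polynomial
open scoped IntermediateField

universe u

namespace PGL

theorem fin2B (hbb : BBMainStmt.{u}) : Fin2BStmt.{u} := by
  classical
  intro k M _ _ _ _ _ F₀ hgood
  rintro A ⟨A₀, hA₀⟩
  choose T hTf hTa hTB hTR using hgood
  refine ⟨⋃ a ∈ A₀, T a, A₀.finite_toSet.biUnion (fun a _ => hTf a), ?_⟩
  intro d hd hd0 hTsub E _ _ _ P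
  generalize hR : Algebra.adjoin k ((A : Set M) ∪ {d⁻¹}) = R at hTsub ⊢
  intro x₀ ψ
  have hAR : A ≤ R := fun z hz => by rw [← hR]; exact Algebra.subset_adjoin (Or.inl hz)
  have hdR : d⁻¹ ∈ R := by rw [← hR]; exact Algebra.subset_adjoin (Or.inr rfl)
  let A₀R : Set R := {r | (r : M) ∈ A₀}
  have hA₀R : A₀R.Finite := A₀.finite_toSet.preimage Subtype.val_injective.injOn
  have hA₀A : (A₀ : Set M) ⊆ A := by rw [← hA₀]; exact Algebra.subset_adjoin
  have himg : R.val '' A₀R = A₀ := by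
    ext z
    constructor
    · rintro ⟨r, hr, rfl⟩; exact hr
    · intro hz
      exact ⟨⟨z, hAR (hA₀A hz)⟩, hz, rfl⟩
  have hgen : GenBy k A₀R := by
    refine ⟨⟨d, hAR hd⟩, ?_, ⟨d⁻¹, hdR⟩, ?_, ?_⟩
    · have h1 : d ∈ (Algebra.adjoin k A₀R).map R.val := by
        rw [AlgHom.map_adjoin, himg, hA₀]; exact hd
      obtain ⟨y, hy, hyd⟩ := h1
      have : y = ⟨d, hAR hd⟩ := Subtype.ext hyd
      rw [← this]; exact hy
    · apply Subtype.ext
      exact mul_inv_cancel₀ hd0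
    · rw [eq_top_iff]
      intro r _
      have h1 : (r : M) ∈ (Algebra.adjoin k (A₀R ∪ {⟨d⁻¹, hdR⟩})).map R.val := by
        rw [AlgHom.map_adjoin, Set.image_union, himg, Set.image_singleton]
        have h2 : R ≤ Algebra.adjoin k ((A₀ : Set M) ∪ {d⁻¹}) := by
          rw [← hR]
          apply Algebra.adjoin_le
          rintro z (hz | hz)
          · have h3 : A ≤ Algebra.adjoin k ((A₀ : Set M) ∪ {d⁻¹}) := by
              rw [← hA₀]
              exact Algebra.adjoin_mono Set.subset_union_left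
            exact h3 hz
          · exact Algebra.subset_adjoin (Or.inr hz)
        exact h2 r.2
      obtain ⟨y, hy, hyr⟩ := h1
      have : y = r := Subtype.ext hyr
      rw [← this]; exact hy
  have hsub : ∀ a ∈ A₀R, T (a : M) ⊆ (⋃ a ∈ A₀, T a) := fun a ha =>
    Set.subset_biUnion_of_mem (u := fun a => T a) ha
  -- bounds for the heights
  have hBex : ∀ a : R, ∃ B : ℕ, a ∈ A₀R → ∀ φ : R →ₐ[k] E,
      (∀ r : R, (r : M) ∈ (⋃ a ∈ A₀, T a) ∩ F₀ → φ r = ψ r) → ht k (φ a) ≤ B := by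
    intro a
    by_cases ha : a ∈ A₀R
    · obtain ⟨B, hB⟩ := hTB (a : M) E ψ
      refine ⟨B, fun _ φ hφ => ?_⟩
      have := hB R ((hsub a ha).trans hTsub) φ (fun t ht ht0 => by
        have htR : t ∈ R := hTsub (hsub a ha ht)
        rw [ev_mem φ htR]
        exact hφ ⟨t, htR⟩ ⟨hsub a ha ht, ht0⟩)
      rwa [ev_coe] at this
    · exact ⟨0, fun h => absurd h ha⟩
  choose B hB using hBex
  by_contra hinf
  obtain ⟨E', i1, i2, z, φ, hz, hz', ⟨a, ha, hac⟩, hF⟩ :=
    hbb k E R A₀R {r : R | (r : M) ∈ (⋃ a ∈ A₀, T a) ∩ F₀} P x₀ B (fun r => ψ r) hA₀R hgen (by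
      refine Set.Infinite.mono ?_ hinf
      rintro φ ⟨h1, h2⟩
      exact ⟨h1, fun a ha => hB a ha φ h2, fun t ht => h2 t ht⟩)
  obtain ⟨c, hc⟩ := hTR (a : M) E' z hz hz' R ((hsub a ha).trans hTsub) φ (fun t ht ht0 => by
    have htR : t ∈ R := hTsub (hsub a ha ht)
    rw [ev_mem φ htR]
    exact hF ⟨t, htR⟩ ⟨hsub a ha ht, ht0⟩)
  rw [ev_coe] at hc
  exact hac c hc

end PGL
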