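import Mathlib
import Pool.Agent.Helper11_PGL.StmtT

/-!
# Squad PGL, module PT: a curve through many points of a variety
-/

open Polynomial
open scoped IntermediateField

universe u

namespace PGL

/-- evaluation at `X = 1` turns homogeneous integrality into integrality -/
theorem homInt_isIntegral {k A ι : Type*} [Field k] [CommRing A] [Algebra k A] (y : ι → A) (a : A)
    (h : HomInt k y a) : IsIntegral (Algebra.adjoin k (Set.range y)) a := by
  set S := Algebra.adjoin k (insert (X : A[X]) (Set.range fun l => C (y l) * X)) with hS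
  set T := Algebra.adjoin k (Set.range y) with hT
  set ψ : A[X] →+* A := Polynomial.evalRingHom (1 : A) with hψ
  let ψ' : A[X] →ₐ[k] A := AlgHom.mk ψ (by
    intro c
    change ψ (algebraMap k A[X] c) = _
    rw [Polynomial.algebraMap_apply, hψ, Polynomial.coe_evalRingHom, Polynomial.eval_C])
  have hmap : ∀ s : S, ψ (s : A[X]) ∈ T := by
    intro s
    have h1 : S ≤ T.comap ψ' := by
      rw [hS]
      refine Algebra.adjoin_le ?_
      rintro z (rfl | ⟨l, rfl⟩)
      · change ψ X ∈ T
        rw [hψ, Polynomial.coe_evalRingHom, Polynomial.eval_X]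
        exact one_mem _
      · change ψ (C (y l) * X) ∈ T
        rw [hψ, Polynomial.coe_evalRingHom, Polynomial.eval_mul, Polynomial.eval_C,
          Polynomial.eval_X, mul_one]
        exact Algebra.subset_adjoin ⟨l, rfl⟩
    exact h1 s.2
  let φ : S →+* T := (ψ.comp S.val.toRingHom).codRestrict T.toSubring hmap
  have h2 := IsIntegral.map_of_comp_eq φ ψ (by
    ext s
    rfl) h
  have h3 : ψ (C a * X) = a := by
    rw [hψ, Polynomial.coe_evalRingHom, Polynomial.eval_mul, Polynomial.eval_C,
      Polynomial.eval_X, mul_one]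
  rw [h3] at h2
  exact h2

/-- all elements of the coordinate ring are integral over the projection -/
theorem varD_integral {k : Type u} [Field k] {ν v D : ℕ} {A : Type u} [CommRing A] [Algebra k A]
    {x : Fin ν → A} {α : Fin v → Fin ν → k} (h : VarD k ν v D A x α) (a : A) :
    IsIntegral (Algebra.adjoin k (Set.range fun l => lin (α l) x)) a := by
  set T := Algebra.adjoin k (Set.range fun l => lin (α l) x) with hT
  have h1 : a ∈ Algebra.adjoin k (Set.range x) := by
    rw [h.gen]
    trivial
  have h2 : Algebra.adjoin k (Set.range x) ≤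
      (integralClosure T A).restrictScalars k := by
    refine Algebra.adjoin_le ?_
    rintro _ ⟨j, rfl⟩
    exact homInt_isIntegral _ _ (h.int j)
  exact h2 h1

theorem varD_finiteType {k : Type u} [Field k] {ν v D : ℕ} {A : Type u} [CommRing A] [Algebra k A]
    {x : Fin ν → A} {α : Fin v → Fin ν → k} (h : VarD k ν v D A x α) :
    Algebra.FiniteType k A := by
  classical
  refine ⟨⟨Finset.univ.image x, ?_⟩⟩
  rw [Finset.coe_image, Finset.coe_univ, Set.image_univ]
  exact h.gen

/-- a variety of dimension one is a curve -/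
theorem curvD_of_varD (hcount : CountStmt.{u}) {k : Type u} [Field k] [IsAlgClosed k] [CharZero k]
    {ν D : ℕ} {A : Type u} [CommRing A] [Algebra k A] {x : Fin ν → A} {α : Fin 1 → Fin ν → k}
    (h : VarD k ν 1 D A x α) : CurvD k ν D A x (α 0) := by
  classical
  haveI := h.dom
  haveI := varD_finiteType h
  refine ⟨h.dom, h.gen, ?_, ?_, ?_⟩
  · exact AlgebraicIndependent.transcendental h.indep 0
  · intro j
    have h1 := h.int j
    have h2 : (Set.range fun l : Fin 1 => C (lin (α l) x) * (X : A[X]))
        = Set.range fun _ : Unit => C (lin (α 0) x) * (X : A[X]) := by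
      ext z
      constructor
      · rintro ⟨l, rfl⟩
        refine ⟨(), ?_⟩
        rw [Subsingleton.elim l 0]
      · rintro ⟨l, rfl⟩
        exact ⟨0, rfl⟩
    rw [HomInt] at h1 ⊢
    rw [← h2]
    exact h1
  · intro K _ _ _ _ _
    let y : Fin 1 → A := fun l => lin (α l) x
    let e : (A ⧸ (⊥ : Ideal A)) ≃ₐ[k] A := AlgEquiv.quotientBot k A
    have he : ∀ a : A, e (Ideal.Quotient.mk (⊥ : Ideal A) a) = a := fun a => rfl
    have he' : ∀ a : A, e.symm a = Ideal.Quotient.mk (⊥ : Ideal A) a := fun a => rfl
    obtain ⟨d, hd1, hd2⟩ := hcount k A 1 y {⊥} D (by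
      intro 𝔭 h𝔭
      rw [Finset.mem_singleton] at h𝔭
      subst h𝔭
      refine ⟨Ideal.isPrime_bot, ?_, ?_⟩
      · have h3 := h.indep.map' (f := e.symm.toAlgHom) e.symm.injective
        exact h3
      · intro a
        obtain ⟨a, rfl⟩ := Ideal.Quotient.mk_surjective a
        have h4 := varD_integral h a
        set T := Algebra.adjoin k (Set.range fun l => lin (α l) x) with hT
        set T' := Algebra.adjoin k
          (Set.range (fun l => Ideal.Quotient.mk (⊥ : Ideal A) (y l))) with hT'
        have hmap : ∀ s : T, e.symm (s : A) ∈ T' := by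
          intro s
          have h5 : T ≤ T'.comap e.symm.toAlgHom := by
            rw [hT]
            refine Algebra.adjoin_le ?_
            rintro _ ⟨l, rfl⟩
            exact Algebra.subset_adjoin ⟨l, rfl⟩
          exact h5 s.2
        let φ : T →+* T' := (e.symm.toRingEquiv.toRingHom.comp
          T.val.toRingHom).codRestrict T'.toSubring hmap
        exact IsIntegral.map_of_comp_eq φ e.symm.toRingEquiv.toRingHom (by
          ext s
          rfl) h4)
      (by
        intro Ω _ _ η
        refine (Set.encard_le_encard ?_).trans (h.deg Ω η)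
        intro χ hχ
        exact hχ.1)
    letI : Algebra (A ⧸ (⊥ : Ideal A)) K :=
      ((algebraMap A K).comp (e.toRingEquiv.toRingHom)).toAlgebra
    have hal : ∀ a : A, algebraMap (A ⧸ (⊥ : Ideal A)) K (Ideal.Quotient.mk ⊥ a)
        = algebraMap A K a := fun a => rfl
    haveI : IsScalarTower k (A ⧸ (⊥ : Ideal A)) K := by
      refine IsScalarTower.of_algebraMap_eq fun c => ?_
      rw [IsScalarTower.algebraMap_apply k A K]
      rfl
    haveI : IsFractionRing (A ⧸ (⊥ : Ideal A)) K := by
      have hM : nonZeroDivisors (A ⧸ (⊥ : Ideal A))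
          = (nonZeroDivisors A).map (e.symm.toRingEquiv : A ≃+* (A ⧸ (⊥ : Ideal A))) := by
        ext z
        obtain ⟨z, rfl⟩ := Ideal.Quotient.mk_surjective z
        rw [Submonoid.mem_map]
        constructor
        · intro hz
          refine ⟨z, ?_, rfl⟩
          rw [mem_nonZeroDivisors_iff_ne_zero] at hz ⊢
          rintro rfl
          exact hz (map_zero _)
        · rintro ⟨z', hz', h6⟩
          have h7 : z' = z := e.symm.injective h6
          rw [h7] at hz'
          rw [mem_nonZeroDivisors_iff_ne_zero] at hz' ⊢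
          intro h8
          apply hz'
          exact e.symm.injective (by rw [map_zero]; exact h8)
      have hloc := IsLocalization.isLocalization_of_base_ringEquiv (nonZeroDivisors A) K
        e.symm.toRingEquiv
      rw [← hM] at hloc
      exact hloc
    obtain ⟨hpos, hK⟩ := hd2 ⊥ (Finset.mem_singleton_self _)
    obtain ⟨hK1, hK2⟩ := hK K
    have hrange : (Set.range (fun l => algebraMap (A ⧸ (⊥ : Ideal A)) K
        (Ideal.Quotient.mk ⊥ (y l)))) = {algebraMap A K (lin (α 0) x)} := by
      ext z
      rw [Set.mem_singleton_iff]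
      constructor
      · rintro ⟨l, rfl⟩
        rw [Subsingleton.elim l 0]
        rfl
      · rintro rfl
        exact ⟨0, rfl⟩
    rw [hrange] at hK1 hK2
    refine ⟨hK1, ?_⟩
    rw [hK2]
    rw [Finset.sum_singleton] at hd1
    exact hd1

theorem pt (hgreedy : GreedyStmt.{u}) (hpoly : PolyFStmt.{u}) (hone : CaseOneStmt.{u})
    (htwo : CaseTwoStmt.{u}) (hcount : CountStmt.{u}) : PtStmt.{u} := by
  classical
  intro ν v
  induction v with
  | zero =>
    intro D C
    refine ⟨C * D + 1, ?_⟩
    intro k _ _ _ A _ _ x α S hV hS hΛ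
    exact ⟨A, _, _, x, α 0, D, S, curvD_of_varD hcount hV, subset_rfl, hS, by omega⟩
  | succ v ih =>
    intro D C
    obtain ⟨B, M, e, hBM, hF⟩ := hpoly (v + 1) (C * D)
    obtain ⟨Λ, hΛ⟩ := ih (D * e) C
    refine ⟨M + (D * e + 1) * (Λ + 1), ?_⟩
    intro k _ _ _ A _ _ x α S hV hS hcard
    obtain ⟨F, hF0, hFe, hFq⟩ := hF k
    rcases hgreedy k (Fin ν → k) M (v + 1 + 1) e F S (fun b l => lin (α l) b) hF0 hFe with
      ⟨q, hq1, hq2, hq3⟩ | ⟨c, hc0, hce, hc⟩
    · obtain ⟨g, hg1, hg2⟩ := hFq (fun i l => lin (α l) (q i)) hq3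
      obtain ⟨A', i1, i2, x', α', D', S', h1, h2, h3, h4⟩ :=
        hone k ν (v + 1) D B C A x α g (Finset.univ.image q) hV hg2 (by
          intro p hp
          obtain ⟨i, -, rfl⟩ := Finset.mem_image.1 hp
          exact ⟨hS _ (hq2 i), fun l => hg1 i l⟩) (by
          rw [Finset.card_image_of_injective _ hq1, Finset.card_univ, Fintype.card_fin,
            ← mul_assoc]
          exact hBM)
      refine ⟨A', i1, i2, x', α', D', S', h1, ?_, h3, h4⟩
      intro p hp
      obtain ⟨i, -, rfl⟩ := Finset.mem_image.1 (h2 hp)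
      exact hq2 i
    · set S2 := S.filter (fun b => MvPolynomial.eval (fun l => lin (α l) b) c = 0) with hS2
      have h5 : S2.card + (S.filter (fun b => ¬ MvPolynomial.eval (fun l => lin (α l) b) c = 0)).card
          = S.card := Finset.card_filter_add_card_filter_not _
      have h6 : (D * e + 1) * (Λ + 1) ≤ S2.card := by
        have h7 : (S.filter (fun b => ¬ MvPolynomial.eval (fun l => lin (α l) b) c = 0)).card ≤ M :=
          hc
        omega
      have h8 : 0 < S2.card := lt_of_lt_of_le (Nat.mul_pos (by omega) (by omega)) h6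
      obtain ⟨A', i1, i2, x', α', S', h1, h2, h3, h4⟩ :=
        htwo k ν (v + 1) D e A x α c S2 (by omega) hV hc0 hce (Finset.card_pos.1 h8) (by
          intro p hp
          rw [hS2, Finset.mem_filter] at hp
          exact ⟨hS p hp.1, hp.2⟩)
      have h9 : Λ ≤ S'.card := by
        by_contra hlt
        push Not at hlt
        have h10 : D * e * S'.card ≤ D * e * Λ := Nat.mul_le_mul_left _ hlt.le
        have h11 : D * e * Λ < (D * e + 1) * (Λ + 1) := by nlinarith
        omega
      obtain ⟨A'', j1, j2, x'', α'', D'', S'', k1, k2, k3, k4⟩ := hΛ k A' x' α' S' h1 h3 h9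
      refine ⟨A'', j1, j2, x'', α'', D'', S'', k1, ?_, k3, k4⟩
      intro p hp
      have := h2 (k2 hp)
      rw [hS2, Finset.mem_filter] at this
      exact this.1

end PGL
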